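import Pool.Agent.K3h75.ND.StmK
import Pool.Agent.K3h49.ND.G0

/-!
# Project ND (helper75, MP_6a3dac_ag), brick G0O: from `GoodVecO` to prime ideals (helper24)
-/

set_option autoImplicit false

namespace Pool.Agent.K3h24.ND

open MvPolynomial Pool.Agent.TH214.RM NumberField Pool.Agent.K3h75.ND
open Pool.Agent.K3h49.ND (form_hom eval_class eval_deh deh_X_self euler_zero)

theorem map_form' {N d : ℕ} {R S : Type} [CommRing R] [CommRing S] (φ : R →+* S)
    (a : Mon N d → R) : map φ (form a) = form fun m => φ (a m) := by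
  unfold form
  rw [map_sum]
  refine Finset.sum_congr rfl fun m _ => ?_
  rw [map_monomial]

theorem smooth {n d : ℕ} {O : Type} [CommRing O] {a : Mon (n + 1 + 1) d → O} (ha : GoodVecO a)
    (K : Type) [Field K] [NumberField K] (θ : O →+* 𝓞 K) :
    Smooth (map (algebraMap (𝓞 K) K) (form fun m => θ (a m))) := by
  intro i
  rw [map_form', Ideal.radical_eq_sInf, Submodule.mem_sInf]
  rintro P ⟨hP, hPr⟩
  by_contra hi
  have := hPr
  let B := MvPolynomial (Fin (n + 1 + 1)) K ⧸ P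
  let k := FractionRing B
  let ψ : MvPolynomial (Fin (n + 1 + 1)) K →+* k := (algebraMap B k).comp (Ideal.Quotient.mk P)
  have hψ : ∀ Q, ψ Q = 0 → Q ∈ P := by
    intro Q hQ
    have h1 : algebraMap B k (Ideal.Quotient.mk P Q) = 0 := hQ
    rw [map_eq_zero_iff _ (IsFractionRing.injective B k)] at h1
    exact Ideal.Quotient.eq_zero_iff_mem.1 h1
  have hψ' : ∀ Q ∈ P, ψ Q = 0 := by
    intro Q hQ
    change algebraMap B k (Ideal.Quotient.mk P Q) = 0
    rw [Ideal.Quotient.eq_zero_iff_mem.2 hQ, map_zero]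
  have : CharZero k := charZero_of_injective_ringHom (ψ.comp C).injective
  let φ : O →+* k := (ψ.comp C).comp ((algebraMap (𝓞 K) K).comp θ)
  have h1 : form (fun m => φ (a m)) =
      map (ψ.comp C) (form fun m => algebraMap (𝓞 K) K (θ (a m))) := by
    rw [map_form']
    rfl
  have hx := ha.1 k φ (fun i => ψ (X i)) (fun j => by
    rw [h1, pderiv_map, eval_class]
    exact hψ' _ (hP (Ideal.subset_span ⟨j, rfl⟩)))
  exact hi (hψ _ (congrFun hx i))

theorem nodal {n d : ℕ} {O : Type} [CommRing O] {a : Mon (n + 1 + 1) d → O} (ha : GoodVecO a)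
    (K : Type) [Field K] [NumberField K] (θ : O →+* 𝓞 K) (𝔭 : Ideal (𝓞 K)) (h0 : 𝔭 ≠ ⊥) :
    Nod 𝔭 (form fun m => θ (a m)) := by
  intro s Q hQ hC hdeh
  by_contra hcon
  rw [not_or, not_exists, not_not] at hcon
  obtain ⟨hder, hdt⟩ := hcon
  have hder' : ∀ j, pderiv j (deh s (form fun m => θ (a m))) ∈ Q := by
    intro j
    by_contra h
    exact hder j h
  have := hQ
  let B := MvPolynomial {j : Fin (n + 1 + 1) // j ≠ s} (𝓞 K) ⧸ Q
  let k := FractionRing B
  let ψ : MvPolynomial {j : Fin (n + 1 + 1) // j ≠ s} (𝓞 K) →+* k :=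
    (algebraMap B k).comp (Ideal.Quotient.mk Q)
  have hψ' : ∀ P ∈ Q, ψ P = 0 := by
    intro P hP
    change algebraMap B k (Ideal.Quotient.mk Q P) = 0
    rw [Ideal.Quotient.eq_zero_iff_mem.2 hP, map_zero]
  -- the characteristic of `k`
  obtain ⟨p, hp⟩ := CharP.exists k
  have hpp : p.Prime := by
    rcases CharP.char_is_prime_or_zero k p with h | h
    · exact h
    · subst h
      have : CharZero k := CharP.charP_to_charZero k
      exfalso
      have h1 : ((Ideal.absNorm 𝔭 : ℕ) : 𝓞 K) ∈ 𝔭 := Ideal.absNorm_mem 𝔭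
      have h2 : Ideal.absNorm 𝔭 ≠ 0 := by
        rw [Ne, Ideal.absNorm_eq_zero_iff]
        exact h0
      have h3 : ψ (C ((Ideal.absNorm 𝔭 : ℕ) : 𝓞 K)) = 0 := hψ' _ ((hC _).2 h1)
      rw [map_natCast C, map_natCast] at h3
      exact h2 (Nat.cast_eq_zero.1 h3)
  let φ : O →+* k := (ψ.comp C).comp θ
  have hform : form (fun m => φ (a m)) =
      map (ψ.comp C) (form fun m => θ (a m)) := by
    rw [map_form']
    rfl
  let x : Fin (n + 1 + 1) → k := fun i => ψ (deh s (X i : MvPolynomial (Fin (n + 1 + 1)) (𝓞 K)))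
  have hxs : x s = 1 := by
    change ψ (deh s (X s)) = 1
    rw [deh_X_self, map_one]
  have hF : eval x (form fun m => φ (a m)) = 0 := by
    rw [hform, eval_deh]
    exact hψ' _ hdeh
  have hne : ∀ i, i ≠ s → eval x (pderiv i (form fun m => φ (a m))) = 0 := by
    intro i hi
    rw [hform, pderiv_map, eval_deh]
    have h1 := pderiv_deh s ⟨i, hi⟩ (form fun m => θ (a m))
    rw [← h1]
    exact hψ' _ (hder' ⟨i, hi⟩)
  have hall : ∀ i, eval x (pderiv i (form fun m => φ (a m))) = 0 :=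
    euler_zero _ (form_hom _) s x hxs hF hne
  refine ha.2 p hpp k φ x s hxs hF hall ?_
  have h1 : ψ (hess (deh s (form fun m => θ (a m)))).det = 0 := hψ' _ hdt
  rw [RingHom.map_det] at h1
  unfold hdet
  rw [← h1]
  congr 1
  ext i j
  simp only [Matrix.of_apply, RingHom.mapMatrix_apply, Matrix.map_apply, hess]
  rw [pderiv_deh s j, pderiv_deh s i, ← eval_deh s ψ, hform, pderiv_map, pderiv_map]

/-- **Brick G0O.** -/
theorem t_G0O : S_G0O := fun _ _ _ _ _ ha E _ _ θ =>
  ⟨smooth ha E θ, fun 𝔭 _ h0 => nodal ha E θ 𝔭 h0⟩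

end Pool.Agent.K3h24.ND
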